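import Pool.Agent.H8.ZA.Targets2
import Mathlib.RingTheory.AlgebraicIndependent.TranscendenceBasis

/-!
# Two elements are algebraically dependent modulo a prime of codimension at least two
-/

open MvPolynomial

namespace Pool.Agent.H20.ZA

open Pool.Agent.H8.ZA

theorem pf_DEP (hN : T_NOE) : T_DEP := by
  intro k _ I hI hI0 hP u w
  obtain ⟨s, hs, g, hg, hfin⟩ := hN k I hI hI0 hP
  have : I.IsPrime := hI
  by_contra hcon
  push Not at hcon
  have hindep : AlgebraicIndependent k
      ![Ideal.Quotient.mk I u, Ideal.Quotient.mk I w] := by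
    rw [algebraicIndependent_iff]
    intro F hF
    by_contra hF0
    apply hcon F hF0
    rw [← Ideal.Quotient.eq_zero_iff_mem]
    have : (Ideal.Quotient.mkₐ k I) (aeval ![u, w] F) =
        aeval ![Ideal.Quotient.mk I u, Ideal.Quotient.mk I w] F := by
      rw [← AlgHom.comp_apply, comp_aeval]
      congr 2
      funext a
      fin_cases a <;> rfl
    rw [← hF, ← this]; rfl
  have h2 := hindep.lift_cardinalMk_le_trdeg
  let _ : Algebra (MvPolynomial (Fin s) k) (Po k ⧸ I) := g.toRingHom.toAlgebra
  have hmap : ∀ x, algebraMap (MvPolynomial (Fin s) k) (Po k ⧸ I) x = g x := fun _ => rfl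
  have : IsScalarTower k (MvPolynomial (Fin s) k) (Po k ⧸ I) := by
    refine IsScalarTower.of_algebraMap_eq' ?_
    ext x
    change _ = g (algebraMap _ _ x)
    rw [AlgHom.commutes]
  have : FaithfulSMul (MvPolynomial (Fin s) k) (Po k ⧸ I) :=
    (faithfulSMul_iff_algebraMap_injective _ _).2 hg
  have : Module.Finite (MvPolynomial (Fin s) k) (Po k ⧸ I) := hfin
  have : Algebra.IsAlgebraic (MvPolynomial (Fin s) k) (Po k ⧸ I) := inferInstance
  have h3 := trdeg_add_eq k (MvPolynomial (Fin s) k) (A := Po k ⧸ I)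
  rw [trdeg_eq_zero (R := MvPolynomial (Fin s) k) (A := Po k ⧸ I), add_zero,
    MvPolynomial.trdeg_of_isDomain] at h3
  rw [← h3] at h2
  simp only [Cardinal.mk_fin, Cardinal.lift_natCast] at h2
  have h4 : (2 : ℕ) ≤ s := by exact_mod_cast h2
  omega

end Pool.Agent.H20.ZA
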