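import Pool.Agent.H8.ZA.Targets2
import Mathlib.Algebra.MvPolynomial.NoZeroDivisors

/-!
# Modulo an irreducible polynomial two of the variables are algebraically independent
-/

open MvPolynomial

namespace Pool.Agent.H20.ZA

open Pool.Agent.H8.ZA

theorem fin3_other (l : Fin 3) : ∃ i j : Fin 3, i ≠ j ∧ i ≠ l ∧ j ≠ l := by
  fin_cases l
  · exact ⟨1, 2, by decide, by decide, by decide⟩
  · exact ⟨0, 2, by decide, by decide, by decide⟩
  · exact ⟨0, 1, by decide, by decide, by decide⟩

theorem pf_IND : T_IND := by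
  classical
  intro k _ P hP hP0
  have hprime : Prime P := (Ideal.span_singleton_prime hP0).1 hP
  have hvars : P.vars.Nonempty := by
    rw [Finset.nonempty_iff_ne_empty]
    intro h0
    have h1 := vars_eq_empty_iff_eq_C.1 h0
    have h2 : P.coeff 0 ≠ 0 := by
      intro h3; rw [h3, C_0] at h1; exact hP0 h1
    apply hprime.not_isUnit
    rw [h1]
    exact (isUnit_iff_ne_zero.2 h2).map C
  obtain ⟨l, hl⟩ := hvars
  obtain ⟨i, j, hij, hil, hjl⟩ := fin3_other l
  refine ⟨i, j, fun F hF hmem => ?_⟩
  obtain ⟨Q, hQ⟩ := Ideal.mem_span_singleton'.1 hmem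
  have hinj : Function.Injective (![i, j] : Fin 2 → Fin 3) := by
    intro a b hab
    fin_cases a <;> fin_cases b <;> simp_all
  have hren : aeval ![(X i : Po k), X j] F = rename ![i, j] F := by
    have : (![(X i : Po k), X j]) = (X ∘ ![i, j] : Fin 2 → Po k) := by
      funext a; fin_cases a <;> rfl
    rw [this, ← aeval_rename, aeval_X_left_apply]
  have hne : rename (![i, j] : Fin 2 → Fin 3) F ≠ 0 := by
    intro h
    exact hF (rename_injective _ hinj (by rw [h, map_zero]))
  rw [hren] at hQ
  have hQ0 : Q ≠ 0 := by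
    rintro rfl; rw [zero_mul] at hQ; exact hne hQ.symm
  have hd : degreeOf l (rename (![i, j] : Fin 2 → Fin 3) F) = 0 := by
    by_contra h
    have h1 := mem_vars_iff_degreeOf_ne_zero.2 h
    have h2 := vars_rename (![i, j] : Fin 2 → Fin 3) F h1
    rw [Finset.mem_image] at h2
    obtain ⟨a, -, ha⟩ := h2
    fin_cases a
    · exact hil ha
    · exact hjl ha
  rw [← hQ, degreeOf_mul_eq hQ0 hP0] at hd
  exact mem_vars_iff_degreeOf_ne_zero.1 hl (by omega)

end Pool.Agent.H20.ZA
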